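import Pool.Agent.Helper41.FX.StK2

set_option autoImplicit false

namespace Pool.Agent.Helper47.FX

open Polynomial Pool.Agent.Helper72.FX Pool.Agent.Helper72.KRF Pool.Agent.Helper41.FX

/-- restriction along a retract, with the values at cyclic modules -/
private theorem resV (hRES : StRES) (A A' : Type) [CommRing A] [CommRing A'] (φ : A' →+* A)
    (ρ : A →+* A') (K : Ideal A) (hρφ : ∀ a' : A', ρ (φ a') = a') (hK : ∀ a ∈ K, ρ a = 0)
    (hs : ∀ a : A, a - φ (ρ a) ∈ K) (I' : Ideal A') (χ : AF A' (kil I') (ZMod 2)) :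
    ∃ ψ : AF A (kil (I'.map φ ⊔ K)) (ZMod 2), ∀ J' : Ideal A', I' ≤ J' →
      ψ.f (A ⧸ (J'.map φ ⊔ K)) = χ.f (A' ⧸ J') := by
  obtain ⟨ψ, hψ⟩ := hRES A A' φ (I'.map φ ⊔ K) I' le_sup_left
    (fun a => ⟨ρ a, Ideal.mem_sup_right (hs a)⟩) (ZMod 2) χ
  refine ⟨ψ, fun J' hJ => ?_⟩
  let _ : Module A' (A ⧸ (J'.map φ ⊔ K)) := Module.compHom _ φ
  rw [hψ (A ⧸ (J'.map φ ⊔ K)) (fun a m => rfl)]
  let g : A' →ₗ[A'] (A ⧸ (J'.map φ ⊔ K)) :=
    { toFun := fun a' => Ideal.Quotient.mk _ (φ a')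
      map_add' := fun a b => by rw [map_add, map_add]
      map_smul' := fun a b => by
        rw [smul_eq_mul, map_mul, map_mul]
        rfl }
  have hgs : Function.Surjective g := by
    intro y
    obtain ⟨a, rfl⟩ := Ideal.Quotient.mk_surjective y
    refine ⟨ρ a, ?_⟩
    change Ideal.Quotient.mk _ (φ (ρ a)) = Ideal.Quotient.mk _ a
    rw [eq_comm, Ideal.Quotient.eq]
    exact Ideal.mem_sup_right (hs a)
  have hmap : (J'.map φ ⊔ K).map ρ ≤ J' := by
    rw [Ideal.map_sup, Ideal.map_map]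
    refine sup_le ?_ ?_
    · have h1 : ρ.comp φ = RingHom.id A' := RingHom.ext hρφ
      rw [h1, Ideal.map_id]
    · rw [Ideal.map_le_iff_le_comap]
      intro a ha
      rw [Ideal.mem_comap, hK a ha]
      exact J'.zero_mem
  have hker : LinearMap.ker g = J' := by
    ext a'
    rw [LinearMap.mem_ker]
    change Ideal.Quotient.mk _ (φ a') = 0 ↔ _
    rw [Ideal.Quotient.eq_zero_iff_mem]
    constructor
    · intro h
      have h1 := hmap (Ideal.mem_map_of_mem ρ h)
      rwa [hρφ] at h1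
    · intro h
      exact Ideal.mem_sup_left (Ideal.mem_map_of_mem φ h)
  have e : (A' ⧸ J') ≃ₗ[A'] (A ⧸ (J'.map φ ⊔ K)) :=
    (Submodule.quotEquivOfEq _ _ hker.symm).trans (LinearMap.quotKerEquivOfSurjective g hgs)
  exact χ.equiv (gd_kil I') e.symm inferInstance (kil_mono hJ (kil_quot J'))

private def GoodE (S A : Type) [CommRing S] [CommRing A] (ι : S →+* A) : Prop :=
  ∀ (I : Ideal S) (χ : AF S (kil I) (ZMod 2)), ∃ ψ : AF A (kil (I.map ι)) (ZMod 2),
    ∀ J : Ideal S, I ≤ J → ψ.f (A ⧸ J.map ι) = χ.f (S ⧸ J)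

private theorem good_comp {S A B : Type} [CommRing S] [CommRing A] [CommRing B] (ι : S →+* A)
    (κ : A →+* B) (h1 : GoodE S A ι) (h2 : GoodE A B κ) : GoodE S B (κ.comp ι) := by
  intro I χ
  obtain ⟨ψ, hψ⟩ := h1 I χ
  obtain ⟨θ, hθ⟩ := h2 _ ψ
  rw [← Ideal.map_map]
  refine ⟨θ, fun J hJ => ?_⟩
  rw [← Ideal.map_map]
  exact (hθ _ (Ideal.map_mono hJ)).trans (hψ J hJ)

private theorem good_equiv (hRES : StRES) {A A' : Type} [CommRing A] [CommRing A']
    (e : A ≃+* A') : GoodE A A' (e : A →+* A') := by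
  intro I χ
  obtain ⟨ψ, hψ⟩ := resV hRES A' A (e : A →+* A') (e.symm : A' →+* A) ⊥
    (fun a => e.symm_apply_apply a) (fun a ha => by
      rw [Ideal.mem_bot.1 ha, map_zero])
    (fun a => by
      rw [Ideal.mem_bot]
      change a - e (e.symm a) = 0
      rw [e.apply_symm_apply, sub_self]) I χ
  refine ⟨ψ.mono (fun M _ _ h => ?_), fun J hJ => ?_⟩
  · rwa [sup_bot_eq]
  · have h := hψ J hJ
    rw [sup_bot_eq (Ideal.map (e : A →+* A') J)] at h
    exact h

private theorem good_poly (hSNK : StSNK) (hDQ : StDQ) (hRES : StRES) (hCKQ : StCKQ) (S : Type)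
    [CommRing S] [IsNoetherianRing S] : GoodE S S[X] (C : S →+* S[X]) := by
  intro I χ
  obtain ⟨χ', hχ'⟩ := resV hRES S[X] S (C : S →+* S[X]) (Polynomial.evalRingHom 0)
    (Ideal.span {X}) (fun a => by simp) (fun a ha => by
      obtain ⟨b, rfl⟩ := Ideal.mem_span_singleton'.1 ha
      simp) (fun a => by
      rw [Ideal.mem_span_singleton, Polynomial.X_dvd_iff]
      simp [Polynomial.coeff_zero_eq_eval_zero]) I χ
  obtain ⟨ψ, hψ⟩ := hDQ hSNK S[X] (I.map C) X (ZMod 2) χ'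
  refine ⟨ψ, fun J hJ => ?_⟩
  obtain ⟨⟨e⟩, hKn⟩ := hCKQ S[X] (J.map C) X
  have hsub : Subsingleton (Kn (X : S[X]) (S[X] ⧸ J.map (C : S →+* S[X]))) := by
    apply hKn
    intro r hr
    rw [Ideal.mem_map_C_iff] at hr ⊢
    intro n
    have := hr (n + 1)
    rwa [Polynomial.coeff_X_mul] at this
  have hle : I.map (C : S →+* S[X]) ⊔ Ideal.span {X} ≤ J.map C ⊔ Ideal.span {X} :=
    sup_le_sup_right (Ideal.map_mono hJ) _
  rw [hψ, χ'.of_subsingleton (gd_kil _) (Kn (X : S[X]) (S[X] ⧸ J.map (C : S →+* S[X]))), sub_zero,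
    χ'.equiv (gd_kil _) e inferInstance (kil_mono hle (kil_quot _)), hχ' J hJ]

/-- polynomial rings in finitely many variables -/
private noncomputable def emb (n : ℕ) : MvPolynomial (Fin n) ℂ →+* MvPolynomial (Fin (n + 1)) ℂ :=
  (((MvPolynomial.finSuccEquiv ℂ n).symm.toRingEquiv : (MvPolynomial (Fin n) ℂ)[X] ≃+*
    MvPolynomial (Fin (n + 1)) ℂ) : (MvPolynomial (Fin n) ℂ)[X] →+*
    MvPolynomial (Fin (n + 1)) ℂ).comp C

private theorem emb_X (n : ℕ) (i : Fin n) :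
    emb n (MvPolynomial.X i) = MvPolynomial.X i.succ := by
  change (MvPolynomial.finSuccEquiv ℂ n).symm (C (MvPolynomial.X i)) = _
  rw [AlgEquiv.symm_apply_eq, MvPolynomial.finSuccEquiv_X_succ]

private theorem emb_C (n : ℕ) (z : ℂ) : emb n (MvPolynomial.C z) = MvPolynomial.C z := by
  have h := MvPolynomial.finSuccEquiv_comp_C_eq_C (R := ℂ) n
  exact RingHom.congr_fun h z

private theorem good_emb (hSNK : StSNK) (hDQ : StDQ) (hRES : StRES) (hCKQ : StCKQ) (n : ℕ) :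
    GoodE (MvPolynomial (Fin n) ℂ) (MvPolynomial (Fin (n + 1)) ℂ) (emb n) :=
  good_comp _ _ (good_poly hSNK hDQ hRES hCKQ (MvPolynomial (Fin n) ℂ)) (good_equiv hRES _)

private noncomputable def r7 : MvPolynomial (Fin 6) ℂ →+* B7 :=
  (MvPolynomial.rename (![4, 5, 6, 0, 1, 2] : Fin 6 → Fin 7) :
    MvPolynomial (Fin 6) ℂ →ₐ[ℂ] MvPolynomial (Fin 7) ℂ).toRingHom

private noncomputable def s6 : B7 →+* MvPolynomial (Fin 6) ℂ :=
  (MvPolynomial.aeval (![MvPolynomial.X 3, MvPolynomial.X 4, MvPolynomial.X 5, 0,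
    MvPolynomial.X 0, MvPolynomial.X 1, MvPolynomial.X 2] : Fin 7 → MvPolynomial (Fin 6) ℂ) :
    MvPolynomial (Fin 7) ℂ →ₐ[ℂ] MvPolynomial (Fin 6) ℂ).toRingHom

private theorem r7_X (i : Fin 6) :
    r7 (MvPolynomial.X i) = v7 ((![4, 5, 6, 0, 1, 2] : Fin 6 → Fin 7) i) :=
  MvPolynomial.rename_X _ _

private theorem r7_C (z : ℂ) : r7 (MvPolynomial.C z) = MvPolynomial.C z :=
  MvPolynomial.rename_C _ _

private theorem s6_X (i : Fin 7) :
    s6 (v7 i) = (![MvPolynomial.X 3, MvPolynomial.X 4, MvPolynomial.X 5, 0,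
    MvPolynomial.X 0, MvPolynomial.X 1, MvPolynomial.X 2] : Fin 7 → MvPolynomial (Fin 6) ℂ) i :=
  MvPolynomial.aeval_X _ _

private theorem s6_C (z : ℂ) : s6 (MvPolynomial.C z) = MvPolynomial.C z :=
  MvPolynomial.aeval_C _ _

private theorem s6_r7 : s6.comp r7 = RingHom.id _ := by
  apply MvPolynomial.ringHom_ext
  · intro z
    rw [RingHom.comp_apply, r7_C, s6_C, RingHom.id_apply]
  · intro i
    rw [RingHom.comp_apply, r7_X, s6_X, RingHom.id_apply]
    fin_cases i <;> rfl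

private theorem r7_s6 (p : B7) : p - r7 (s6 p) ∈ Ideal.span {v7 3} := by
  have h : (Ideal.Quotient.mk (Ideal.span {v7 3})).comp (r7.comp s6) =
      Ideal.Quotient.mk (Ideal.span {v7 3}) := by
    apply MvPolynomial.ringHom_ext
    · intro z
      rw [RingHom.comp_apply, RingHom.comp_apply, s6_C, r7_C]
    · intro i
      rw [RingHom.comp_apply, RingHom.comp_apply]
      change Ideal.Quotient.mk _ (r7 (s6 (v7 i))) = Ideal.Quotient.mk _ (v7 i)
      rw [s6_X]
      by_cases hi : i = 3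
      · subst hi
        change Ideal.Quotient.mk _ (r7 0) = Ideal.Quotient.mk _ (v7 3)
        rw [map_zero, map_zero, eq_comm, Ideal.Quotient.eq_zero_iff_mem]
        exact Ideal.subset_span rfl
      · congr 1
        fin_cases i
        · exact r7_X 3
        · exact r7_X 4
        · exact r7_X 5
        · exact absurd rfl hi
        · exact r7_X 0
        · exact r7_X 1
        · exact r7_X 2
  have h2 := RingHom.congr_fun h p
  rw [← Ideal.Quotient.eq_zero_iff_mem, map_sub, sub_eq_zero]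
  exact h2.symm

private noncomputable def lam : R3 →+* (MvPolynomial (Fin 6) ℂ)[X] :=
  C.comp ((emb 5).comp ((emb 4).comp (emb 3)))

private theorem lam_X (i : Fin 3) : mapRingHom r7 (lam (MvPolynomial.X i)) =
    C (v7 ((![0, 1, 2] : Fin 3 → Fin 7) i)) := by
  have h : lam (MvPolynomial.X i) = C (MvPolynomial.X i.succ.succ.succ) := by
    unfold lam
    rw [RingHom.comp_apply, RingHom.comp_apply, RingHom.comp_apply, emb_X, emb_X, emb_X]
  rw [h, coe_mapRingHom, map_C, r7_X]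
  fin_cases i <;> rfl

theorem hC1A : StSNK → StDQ → StRES → StCKQ → StPAR → StC1A := by
  rintro hSNK hDQ hRES hCKQ ⟨π, hπ0, hπ1⟩
  have hg : GoodE R3 (MvPolynomial (Fin 6) ℂ)[X] lam :=
    good_comp _ _ (good_comp _ _ (good_comp _ _ (good_emb hSNK hDQ hRES hCKQ 3)
      (good_emb hSNK hDQ hRES hCKQ 4)) (good_emb hSNK hDQ hRES hCKQ 5))
      (good_poly hSNK hDQ hRES hCKQ (MvPolynomial (Fin 6) ℂ))
  obtain ⟨ψ1, hψ1⟩ := hg _ π
  have hnu : mapRingHom r7 (lam (nu (MvPolynomial.X 0) (MvPolynomial.X 1)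
      (MvPolynomial.X 2))) = C bnu := by
    have h0 := lam_X 0
    have h1 := lam_X 1
    have h2 := lam_X 2
    unfold bnu nu
    simp only [map_add, map_sub, map_mul, map_pow, h0, h1, h2, map_ofNat]
    rfl
  obtain ⟨ψ2, hψ2⟩ := resV hRES B7[X] (MvPolynomial (Fin 6) ℂ)[X] (mapRingHom r7)
    (mapRingHom s6) (Ideal.span {C (v7 3)})
    (fun a => by
      rw [← RingHom.comp_apply, mapRingHom_comp, s6_r7, mapRingHom_id, RingHom.id_apply])
    (fun a ha => by
      obtain ⟨b, rfl⟩ := Ideal.mem_span_singleton'.1 ha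
      rw [map_mul, coe_mapRingHom, map_C, s6_X]
      change _ * C 0 = _
      rw [map_zero, mul_zero])
    (fun a => by
      have h1 : Ideal.span {(C (v7 3) : B7[X])} = (Ideal.span {v7 3}).map C := by
        rw [Ideal.map_span, Set.image_singleton]
      rw [h1, Ideal.mem_map_C_iff]
      intro n
      rw [coeff_sub, coe_mapRingHom, coe_mapRingHom, coeff_map, coeff_map]
      exact r7_s6 _) _ ψ1
  have hval : ∀ J : Ideal R3, Ideal.span {nu (MvPolynomial.X 0) (MvPolynomial.X 1)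
      (MvPolynomial.X 2)} ≤ J →
      ψ2.f (B7[X] ⧸ ((J.map lam).map (mapRingHom r7) ⊔ Ideal.span {C (v7 3)})) =
        π.f (R3 ⧸ J) := fun J hJ => (hψ2 _ (Ideal.map_mono hJ)).trans (hψ1 J hJ)
  have hI : ((Ideal.span {(nu (MvPolynomial.X 0) (MvPolynomial.X 1)
      (MvPolynomial.X 2) : R3)}).map lam).map (mapRingHom r7) ⊔ Ideal.span {C (v7 3)} =
      Ideal.span {C (v7 3), C bnu} := by
    rw [Ideal.map_span, Set.image_singleton, Ideal.map_span, Set.image_singleton, hnu, sup_comm,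
      ← Ideal.span_insert]
  have hJ8 : ((Ideal.span {(MvPolynomial.X 0 : R3), MvPolynomial.X 1}).map lam).map
      (mapRingHom r7) ⊔ Ideal.span {C (v7 3)} = j8 := by
    have h0 := lam_X 0
    have h1 := lam_X 1
    rw [Ideal.map_span, Set.image_pair, Ideal.map_span, Set.image_pair, h0, h1, sup_comm,
      ← Ideal.span_insert]
    rfl
  have hle : Ideal.span {(nu (MvPolynomial.X 0) (MvPolynomial.X 1) (MvPolynomial.X 2) : R3)} ≤
      Ideal.span {(MvPolynomial.X 0 : R3), MvPolynomial.X 1} := by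
    rw [Ideal.span_singleton_le_iff_mem, Ideal.mem_span_pair]
    refine ⟨-MvPolynomial.X 0, 2 + MvPolynomial.X 2 * MvPolynomial.X 1, ?_⟩
    unfold nu
    ring
  have hv0 := hval _ le_rfl
  have hv1 := hval _ hle
  rw [hπ0] at hv0
  rw [hπ1, hJ8] at hv1
  refine ⟨ψ2.mono (fun M _ _ h => ?_), ?_, hv1⟩
  · rwa [hI]
  · change ψ2.f _ = 0
    rw [← hv0]
    exact ψ2.equiv (gd_kil _) (Submodule.quotEquivOfEq _ _ hI.symm) inferInstance (kil_quot _)

end Pool.Agent.Helper47.FX
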