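import Pool.Agent.Helper84.FX.StT

set_option autoImplicit false

namespace Pool.Agent.Helper47.FX

open Set Pool.Agent.Helper84.FX

private theorem spt_insert {d : ℕ} (D : Finset (Cel d)) (e : Cel d) :
    spt (insert e D) = spt D ∪ cel e := by
  ext u
  constructor
  · rintro ⟨c, hc, hu⟩
    rcases Finset.mem_insert.1 hc with h | h
    · right
      rw [← h]
      exact hu
    · left
      exact ⟨c, h, hu⟩
  · rintro (⟨c, hc, hu⟩ | hu)
    · exact ⟨c, Finset.mem_insert_of_mem hc, hu⟩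
    · exact ⟨e, Finset.mem_insert_self e D, hu⟩

private theorem spt_compact {d : ℕ} (D : Finset (Cel d)) (h : ∀ e : Cel d, IsCompact (cel e)) :
    IsCompact (spt D) := by
  have h1 : spt D = ⋃ c ∈ D, cel c := by
    ext u
    simp only [mem_iUnion, exists_prop]
    rfl
  rw [h1]
  exact D.isCompact_biUnion (fun c _ => h c)

private theorem cel_aux {d : ℕ} (hI : (∀ (e e' : Cel d) (u : Fin d → ℝ), u ∈ cel e → u ∉ cbd e →
      u ∈ cel e' → cel e ⊆ cel e') ∧
    (∀ (e : Cel d) (u : Fin d → ℝ), u ∈ cbd e → ∃ e' : Cel d, u ∈ cel e' ∧ cel e' ⊆ cel e ∧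
      e' ≠ e ∧ cel e' ⊆ cbd e) ∧
    (∀ e e' : Cel d, cel e = cel e' → e = e') ∧
    (∀ e : Cel d, IsCompact (cel e) ∧ IsCompact (cbd e) ∧ (cel e).Nonempty) ∧
    (∀ e e' : Cel d, cel e' ⊆ cel e → e' ≠ e → cel e' ⊆ cbd e ∧ e'.2.card < e.2.card))
    (C : Finset (Cel d)) (hC : Cx C) (W : Type) (good : Set (Fin d → ℝ) → ((Fin d → ℝ) → W) → Prop)
    (ha : ∀ K Φ Φ', good K Φ → (∀ u ∈ K, Φ' u = Φ u) → good K Φ')
    (hb : ∀ K K' Φ, IsCompact K → IsCompact K' → good K Φ → good K' Φ → good (K ∪ K') Φ)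
    (hc : ∀ K K' Φ, K' ⊆ K → good K Φ → good K' Φ) (n : ℕ) :
    ∀ D : Finset (Cel d), Cx D → D ⊆ C → (C \ D).card = n →
      (∀ e ∈ C, e ∉ D → ∀ Φ, good (cbd e) Φ → ∃ Φ', good (cel e) Φ' ∧ ∀ u ∈ cbd e, Φ' u = Φ u) →
      ∀ Φ₀, good (spt D) Φ₀ → ∃ Φ, good (spt C) Φ ∧ ∀ u ∈ spt D, Φ u = Φ₀ u := by
  classical
  obtain ⟨h1, h2, -, h4, h5⟩ := hI
  induction n with
  | zero =>
    intro D _ hDC hn _ Φ₀ hΦ₀
    have hCD : C = D := by
      refine Finset.Subset.antisymm ?_ hDC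
      rw [← Finset.sdiff_eq_empty_iff_subset]
      exact Finset.card_eq_zero.1 hn
    rw [hCD]
    exact ⟨Φ₀, hΦ₀, fun u _ => rfl⟩
  | succ n ih =>
    intro D hD hDC hn hd Φ₀ hΦ₀
    have hne : (C \ D).Nonempty := by
      rw [← Finset.card_pos, hn]
      exact Nat.succ_pos n
    obtain ⟨e, he, hmin⟩ := Finset.exists_min_image (C \ D) (fun c => c.2.card) hne
    rw [Finset.mem_sdiff] at he
    have hface : ∀ e' : Cel d, cel e' ⊆ cel e → e' ≠ e → e' ∈ D := by
      intro e' he' hne'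
      by_contra hcon
      have h6 := hmin e' (Finset.mem_sdiff.2 ⟨hC e he.1 e' he', hcon⟩)
      exact absurd (h5 e e' he' hne').2 (not_lt.2 h6)
    have hcbd : cbd e ⊆ spt D := by
      intro u hu
      obtain ⟨e', hu', hsub, hne', -⟩ := h2 e u hu
      exact ⟨e', hface e' hsub hne', hu'⟩
    obtain ⟨Φ', hΦ', hΦ'u⟩ := hd e he.1 he.2 Φ₀ (hc _ _ _ hcbd hΦ₀)
    let Φ₁ : (Fin d → ℝ) → W := fun u => if u ∈ cel e then Φ' u else Φ₀ u
    have hD1 : ∀ u ∈ spt D, Φ₁ u = Φ₀ u := by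
      rintro u ⟨c, hcD, huc⟩
      by_cases hue : u ∈ cel e
      · have hub : u ∈ cbd e := by
          by_contra hcon
          exact he.2 (hD c hcD e (h1 e c u hue hcon huc))
        change (if u ∈ cel e then Φ' u else Φ₀ u) = Φ₀ u
        rw [if_pos hue]
        exact hΦ'u u hub
      · exact if_neg hue
    have he1 : ∀ u ∈ cel e, Φ₁ u = Φ' u := fun u hu => if_pos hu
    have hg : good (spt (insert e D)) Φ₁ := by
      rw [spt_insert]
      exact hb _ _ _ (spt_compact D (fun c => (h4 c).1)) (h4 e).1 (ha _ _ _ hΦ₀ hD1)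
        (ha _ _ _ hΦ' he1)
    have hcx : Cx (insert e D) := by
      intro c hc' c' hsub
      rcases Finset.mem_insert.1 hc' with h | h
      · by_cases hce : c' = e
        · rw [hce]
          exact Finset.mem_insert_self e D
        · rw [h] at hsub
          exact Finset.mem_insert_of_mem (hface c' hsub hce)
      · exact Finset.mem_insert_of_mem (hD c h c' hsub)
    have hsubC : insert e D ⊆ C := Finset.insert_subset he.1 hDC
    have hcard : (C \ insert e D).card = n := by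
      have h6 : C \ insert e D = (C \ D).erase e := by
        ext c
        simp only [Finset.mem_sdiff, Finset.mem_insert, Finset.mem_erase]
        tauto
      rw [h6, Finset.card_erase_of_mem (Finset.mem_sdiff.2 he), hn]
      rfl
    obtain ⟨Φ, hΦ, hΦu⟩ := ih (insert e D) hcx hsubC hcard
      (fun e' he' hne' => hd e' he' (fun h => hne' (Finset.mem_insert_of_mem h))) Φ₁ hg
    refine ⟨Φ, hΦ, fun u hu => ?_⟩
    rw [hΦu u (by rw [spt_insert]; exact Or.inl hu)]
    exact hD1 u hu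

theorem hCEL : StIFC → StCEL := by
  intro hIFC d C D hC hD hDC W good ha hb hc hd Φ₀ hΦ₀
  exact cel_aux (hIFC d) C hC W good ha hb hc _ D hD hDC rfl hd Φ₀ hΦ₀

end Pool.Agent.Helper47.FX
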