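import Pool.Agent.Helper84.FX.StT

set_option autoImplicit false

namespace Pool.Agent.Helper47.FX

open Set Pool.Agent.Helper84.FX

theorem hCMP : StCCT → StCMP := by
  intro hCCT E F G _ _ _ X Y Z f g hf hg
  obtain ⟨⟨hfc, hfm⟩, hf2⟩ := hf
  obtain ⟨⟨hgc, hgm⟩, hg2⟩ := hg
  refine ⟨⟨hgc.comp hfc hfm, hgm.comp hfm⟩, ?_⟩
  intro n a b ha hb hab
  have hfa : Mp (Bd n) Y (f ∘ a) := ⟨hfc.comp ha.1 ha.2, hfm.comp ha.2⟩
  obtain ⟨b1, P, hb1, hb1a, hP, hP0, hP1, hPb⟩ := hg2 n (f ∘ a) b hfa hb (fun u hu => hab u hu)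
  obtain ⟨c, R, hc, hca, hR, hR0, hR1, hRb⟩ := hf2 n a b1 ha hb1 (fun u hu => hb1a u hu)
  have hgR : Mp (II ×ˢ Cb n) Z (g ∘ R) := ⟨hgc.comp hR.1 hR.2, hgm.comp hR.2⟩
  obtain ⟨H, hH, hH0, hH1, hHb⟩ := (hCCT G Z n P (g ∘ R) (fun q => b q.2) hP hgR
    (fun u hu => by
      rw [hP1 u hu]
      exact congrArg g (hR0 u hu).symm)
    (fun s hs u hu => hPb s hs u hu)).1
    (fun s hs u hu => by
      have h1 : (g ∘ R) (s, u) = g (b1 u) := congrArg g (hRb s hs u hu)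
      have h2 : g (b1 u) = g (f (a u)) := congrArg g (hb1a u hu)
      have h3 : b u = g (f (a u)) := hab u hu
      exact (h1.trans h2).trans h3.symm)
  exact ⟨c, H, hc, hca, hH, fun u hu => (hH0 u hu).trans (hP0 u hu),
    fun u hu => (hH1 u hu).trans (congrArg g (hR1 u hu)), fun s hs u hu => hHb s hs u hu⟩

end Pool.Agent.Helper47.FX
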