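import Pool.Agent.Helper84.FX.StX

set_option autoImplicit false

namespace Pool.Agent.Helper47.FX

open Set Pool.Agent.Helper84.FX Pool.Agent.Helper72.FX

private theorem n1_sub (U : Set ℂ) : N1 U ⊆ WW U := by
  rintro z ⟨h2, h4, h7, h8, h9, hn⟩
  unfold nz at hn
  refine ⟨h2, ?_, ?_⟩
  · unfold EE1 E1
    rw [h4, hn]
    ring
  · unfold EE2 E2
    rw [h4, h7, h8, h9]
    generalize kappa (z 0) (z 1) (z 2) = K
    generalize kx (z 0) (z 1) (z 2) = K1
    generalize ky (z 0) (z 1) (z 2) = K2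
    generalize kz (z 0) (z 1) (z 2) = K3
    ring

private theorem n2_sub (U : Set ℂ) : N2 U ⊆ WW U := by
  rintro z ⟨h2, h6, h7, h8, h9, hn⟩
  unfold nz at hn
  refine ⟨h2, ?_, ?_⟩
  · unfold EE1 E1
    rw [h6, hn]
    ring
  · unfold EE2 E2
    rw [h6, h7, h8, h9]
    generalize kappa (z 0) (z 1) (z 2) = K
    generalize kx (z 0) (z 1) (z 2) = K1
    generalize ky (z 0) (z 1) (z 2) = K2
    generalize kz (z 0) (z 1) (z 2) = K3
    ring

private theorem dm_or {E : Type} [TopologicalSpace E] {A B : Set E} {q : E × ℝ}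
    (hq : q ∈ DM A B) : q.1 ∈ A ∨ q.1 ∈ B := by
  obtain ⟨h0, h1, hA, hB⟩ := hq
  rcases h1.eq_or_lt with h | h
  · right
    apply hB
    rw [h]
    exact one_pos
  · exact Or.inl (hA h)

theorem hDMP : StDMP := by
  intro U
  refine ⟨⟨continuous_fst.continuousOn, ?_⟩, ⟨continuous_fst.continuousOn, ?_⟩⟩
  · intro q hq
    rcases dm_or hq with h | h
    · exact n1_sub U h
    · exact n2_sub U h
  · intro q hq
    rcases dm_or hq with h | h
    · exact ⟨n1_sub U h.1, h.2⟩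
    · exact ⟨n2_sub U h.1, h.2⟩

end Pool.Agent.Helper47.FX
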