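import Pool.Agent.Helper2.FX.StG

set_option autoImplicit false

namespace Pool.Agent.Helper47.FX

open Set Metric Pool.Agent.Helper84.FX Pool.Agent.Helper2.FX

private theorem dm_cases {E : Type} [TopologicalSpace E] {A C B : Set E} {q : ℝ × E}
    (hq : q ∈ DM A C B) : q.2 ∈ A ∨ q.2 ∈ B ∨ q.2 ∈ C := by
  obtain ⟨h0, h1, hA, hB, hC⟩ := hq
  rcases h0.eq_or_lt with h | h
  · exact Or.inl (hA h.symm)
  · rcases h1.eq_or_lt with h' | h'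
    · exact Or.inr (Or.inl (hB h'))
    · exact Or.inr (Or.inr (hC h h'))

private theorem dm_inter {E : Type} [TopologicalSpace E] (A C B P : Set E) :
    DM (A ∩ P) (C ∩ P) (B ∩ P) = DM A C B ∩ {q | q.2 ∈ P} := by
  ext q
  constructor
  · intro hq
    have h := dm_cases hq
    obtain ⟨h0, h1, hA, hB, hC⟩ := hq
    refine ⟨⟨h0, h1, fun h => (hA h).1, fun h => (hB h).1, fun h h' => (hC h h').1⟩, ?_⟩
    rcases h with h | h | h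
    · exact h.2
    · exact h.2
    · exact h.2
  · rintro ⟨⟨h0, h1, hA, hB, hC⟩, hP⟩
    exact ⟨h0, h1, fun h => ⟨hA h, hP⟩, fun h => ⟨hB h, hP⟩, fun h h' => ⟨hC h h', hP⟩⟩

private theorem dm_TT {E : Type} [TopologicalSpace E] {G : Type} [NormedAddCommGroup G]
    [NormedSpace ℝ G] (N₁ N₃ N₂ : Set E) (g : E → G) (r : ℝ) (x : E) (v : G) :
    (r, (x, v)) ∈ DM (TT N₁ g) (TT N₃ g) (TT N₂ g) ↔
      ((r, x), v) ∈ TT (DM N₁ N₃ N₂) (fun q : ℝ × E => g q.2) := by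
  constructor
  · intro hq
    have h := dm_cases hq
    obtain ⟨h0, h1, hA, hB, hC⟩ := hq
    have hv : ‖v‖ ≤ 1 ∧ g x = ‖g x‖ • v := by
      rcases h with h | h | h
      · exact h.2
      · exact h.2
      · exact h.2
    exact ⟨⟨h0, h1, fun h => (hA h).1, fun h => (hB h).1, fun h h' => (hC h h').1⟩, hv⟩
  · rintro ⟨⟨h0, h1, hA, hB, hC⟩, hv⟩
    exact ⟨h0, h1, fun h => ⟨hA h, hv⟩, fun h => ⟨hB h, hv⟩, fun h h' => ⟨hC h h', hv⟩⟩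

private theorem sg_mem {E : Type} [TopologicalSpace E] {G : Type} [NormedAddCommGroup G]
    [NormedSpace ℝ G] (N : Set E) (g : E → G) (x : E) (hx : x ∈ N) (hg : g x ≠ 0) :
    sg g x ∈ TT N g ∩ {q | q.2 ≠ 0} := by
  have hn : ‖g x‖ ≠ 0 := norm_ne_zero_iff.2 hg
  refine ⟨⟨hx, ?_, ?_⟩, ?_⟩
  · change ‖(‖g x‖⁻¹ • g x)‖ ≤ 1
    rw [norm_smul, norm_inv, norm_norm, inv_mul_cancel₀ hn]
  · change g x = ‖g x‖ • (‖g x‖⁻¹ • g x)
    rw [smul_smul, mul_inv_cancel₀ hn, one_smul]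
  · change ‖g x‖⁻¹ • g x ≠ 0
    exact smul_ne_zero (inv_ne_zero hn) hg

theorem hDMT : StDMF → StWCG → StCMP → StDMT := by
  intro hDMF hWCG hCMP E _ G _ _ N₁ N₃ N₂ g h31 h32 hgc hT1 hT3 hT2
  obtain ⟨-, hHOM, -, -⟩ := hWCG
  have hmem : ∀ q ∈ DM N₁ N₃ N₂, q.2 ∈ N₁ ∪ N₂ := by
    intro q hq
    rcases dm_cases hq with h | h | h
    · exact Or.inl h
    · exact Or.inr h
    · exact Or.inl (h31 h)
  have hTTm : ∀ {A B : Set E}, A ⊆ B → TT A g ⊆ TT B g := by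
    intro A B hAB q hq
    exact ⟨hAB hq.1, hq.2⟩
  refine ⟨hgc.comp continuous_snd.continuousOn hmem, ?_, ?_⟩
  · -- the projection
    have hM : Mp (DM (TT N₁ g) (TT N₃ g) (TT N₂ g)) (DM N₁ N₃ N₂)
        (fun q : ℝ × (E × G) => (q.1, Prod.fst q.2)) := by
      refine ⟨(continuous_fst.prodMk (continuous_fst.comp continuous_snd)).continuousOn, ?_⟩
      rintro ⟨r, x, v⟩ hq
      exact ((dm_TT N₁ N₃ N₂ g r x v).1 hq).1
    have h1 := hDMF (E × G) E (TT N₁ g) (TT N₃ g) (TT N₂ g) N₁ N₃ N₂ Prod.fst (hTTm h31)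
      (hTTm h32) h31 h32 hT1.2.1 hT3.2.1 hT2.2.1 hM
    have h2 : WE (TT (DM N₁ N₃ N₂) (fun q : ℝ × E => g q.2)) (DM (TT N₁ g) (TT N₃ g) (TT N₂ g))
        (fun p : (ℝ × E) × G => (p.1.1, (p.1.2, p.2))) := by
      refine hHOM ((ℝ × E) × G) (ℝ × (E × G)) _ _ _
        (fun p : ℝ × (E × G) => ((p.1, p.2.1), p.2.2)) ⟨?_, ?_⟩ ⟨?_, ?_⟩ ?_ ?_
      · exact Continuous.continuousOn (by fun_prop)
      · rintro ⟨⟨r, x⟩, v⟩ hq
        exact (dm_TT N₁ N₃ N₂ g r x v).2 hq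
      · exact Continuous.continuousOn (by fun_prop)
      · rintro ⟨r, x, v⟩ hq
        exact (dm_TT N₁ N₃ N₂ g r x v).1 hq
      · intro x _
        rfl
      · intro x _
        rfl
    have h3 := hCMP _ _ _ _ _ _ _ _ h2 h1
    exact h3
  · -- the section
    have hsub1 : ∀ {A B : Set E}, A ⊆ B → A ∩ {x | g x ≠ 0} ⊆ B ∩ {x | g x ≠ 0} :=
      fun hAB => inter_subset_inter_left _ hAB
    have hsub2 : ∀ {A B : Set E}, A ⊆ B →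
        TT A g ∩ {q | q.2 ≠ 0} ⊆ TT B g ∩ {q | q.2 ≠ 0} :=
      fun hAB => inter_subset_inter_left _ (hTTm hAB)
    have hD1 := dm_inter N₁ N₃ N₂ {x | g x ≠ 0}
    have hD2 := dm_inter (TT N₁ g) (TT N₃ g) (TT N₂ g) {q | q.2 ≠ 0}
    have hsgc : ContinuousOn (sg g) ((N₁ ∪ N₂) ∩ {x | g x ≠ 0}) := by
      have h1 : ContinuousOn g ((N₁ ∪ N₂) ∩ {x | g x ≠ 0}) := hgc.mono inter_subset_left
      exact continuousOn_id.prodMk
        ((h1.norm.inv₀ (fun x hx => norm_ne_zero_iff.2 hx.2)).smul h1)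
    have hM : Mp (DM (N₁ ∩ {x | g x ≠ 0}) (N₃ ∩ {x | g x ≠ 0}) (N₂ ∩ {x | g x ≠ 0}))
        (DM (TT N₁ g ∩ {q | q.2 ≠ 0}) (TT N₃ g ∩ {q | q.2 ≠ 0}) (TT N₂ g ∩ {q | q.2 ≠ 0}))
        (fun q : ℝ × E => (q.1, sg g q.2)) := by
      constructor
      · refine continuous_fst.continuousOn.prodMk
          (hsgc.comp continuous_snd.continuousOn ?_)
        intro q hq
        rw [hD1] at hq
        exact ⟨hmem q hq.1, hq.2⟩
      · rintro ⟨r, x⟩ ⟨h0, h1, hA, hB, hC⟩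
        exact ⟨h0, h1, fun h => sg_mem N₁ g x (hA h).1 (hA h).2,
          fun h => sg_mem N₂ g x (hB h).1 (hB h).2,
          fun h h' => sg_mem N₃ g x (hC h h').1 (hC h h').2⟩
    have h1 := hDMF E (E × G) (N₁ ∩ {x | g x ≠ 0}) (N₃ ∩ {x | g x ≠ 0}) (N₂ ∩ {x | g x ≠ 0})
      (TT N₁ g ∩ {q | q.2 ≠ 0}) (TT N₃ g ∩ {q | q.2 ≠ 0}) (TT N₂ g ∩ {q | q.2 ≠ 0}) (sg g)
      (hsub1 h31) (hsub1 h32) (hsub2 h31) (hsub2 h32) hT1.2.2 hT3.2.2 hT2.2.2 hM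
    have h2 : WE (DM (TT N₁ g ∩ {q | q.2 ≠ 0}) (TT N₃ g ∩ {q | q.2 ≠ 0})
        (TT N₂ g ∩ {q | q.2 ≠ 0}))
        (TT (DM N₁ N₃ N₂) (fun q : ℝ × E => g q.2) ∩ {q | q.2 ≠ 0})
        (fun p : ℝ × (E × G) => ((p.1, p.2.1), p.2.2)) := by
      rw [hD2]
      refine hHOM (ℝ × (E × G)) ((ℝ × E) × G) _ _ _
        (fun p : (ℝ × E) × G => (p.1.1, (p.1.2, p.2))) ⟨?_, ?_⟩ ⟨?_, ?_⟩ ?_ ?_
      · exact Continuous.continuousOn (by fun_prop)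
      · rintro ⟨r, x, v⟩ ⟨hq, hv⟩
        exact ⟨(dm_TT N₁ N₃ N₂ g r x v).1 hq, hv⟩
      · exact Continuous.continuousOn (by fun_prop)
      · rintro ⟨⟨r, x⟩, v⟩ ⟨hq, hv⟩
        exact ⟨(dm_TT N₁ N₃ N₂ g r x v).2 hq, hv⟩
      · intro x _
        rfl
      · intro x _
        rfl
    rw [hD1] at h1
    have h3 := hCMP _ _ _ _ _ _ _ _ h1 h2
    exact h3

end Pool.Agent.Helper47.FX
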